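import Pool.Agent.ZGO.StmtsA

/-!
# Row SHI of ZGO (helper64): the shift module of the characters
-/

set_option autoImplicit false

namespace Pool.Agent.ZGO.H64

open Pool.Agent.ZGO

/-- row SHI -/
theorem shi (chm : ChmStmt) (cnt : CntStmt) (inf : InfStmt) : ShiStmt := by
  intro P _ d ψ N A B hL
  obtain ⟨c1, c2, c3, c4, c5, c6, c7, c8⟩ := chm P d ψ N A B hL
  have hth : ∀ f ∈ Xs A B, (fun x => f (ψ x)) ∈ Xs A B := by
    intro f hf
    obtain ⟨M, hM⟩ := (c2 f).1 hf
    exact (c2 _).2 ⟨M, c4 M f hM⟩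
  have hrh : ∀ f ∈ Xs A B, ∀ g : P, (fun x => f (g⁻¹ * x) - f g⁻¹) ∈ Xs A B := by
    intro f hf g
    obtain ⟨M, hM⟩ := (c2 f).1 hf
    exact (c2 _).2 ⟨M, c5 M f hM g⟩
  have h1 : ∀ f ∈ Xs A B, f 1 = 0 := by
    intro f hf
    obtain ⟨M, hM⟩ := (c2 f).1 hf
    exact (c3 M f hM).1
  obtain ⟨θ, hθ⟩ : ∃ θ : Xs A B →+ Xs A B,
      ∀ (f : Xs A B) (x : P), (θ f : P → QZ) x = (f : P → QZ) (ψ x) :=
    ⟨{ toFun := fun f => ⟨fun x => (f : P → QZ) (ψ x), hth _ f.2⟩
       map_zero' := rfl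
       map_add' := fun _ _ => rfl }, fun _ _ => rfl⟩
  obtain ⟨r, hr⟩ : ∃ r : P → (Xs A B →+ Xs A B), ∀ (g : P) (f : Xs A B) (x : P),
      (r g f : P → QZ) x = (f : P → QZ) (g⁻¹ * x) - (f : P → QZ) g⁻¹ :=
    ⟨fun g =>
      { toFun := fun f => ⟨fun x => (f : P → QZ) (g⁻¹ * x) - (f : P → QZ) g⁻¹, hrh _ f.2 g⟩
        map_zero' := by
          apply Subtype.ext
          funext x
          exact sub_self _
        map_add' := by
          intro f h
          apply Subtype.ext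
          funext x
          exact add_sub_add_comm _ _ _ _ }, fun _ _ _ => rfl⟩
  obtain ⟨ρ, hρ⟩ : ∃ ρ : P →* AddMonoid.End (Xs A B), ∀ (g : P) (f : Xs A B) (x : P),
      (ρ g f : P → QZ) x = (f : P → QZ) (g⁻¹ * x) - (f : P → QZ) g⁻¹ :=
    ⟨{ toFun := fun g => r g
       map_one' := by
         apply AddMonoidHom.ext
         intro f
         apply Subtype.ext
         funext x
         refine (hr 1 f x).trans ?_
         rw [inv_one, one_mul, h1 _ f.2, sub_zero]
         rfl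
       map_mul' := by
         intro g h
         apply AddMonoidHom.ext
         intro f
         apply Subtype.ext
         funext x
         have e1 : ((r g) ((r h) f) : P → QZ) x =
             (f : P → QZ) ((g * h)⁻¹ * x) - (f : P → QZ) (g * h)⁻¹ := by
           rw [hr g, hr h, hr h, mul_inv_rev, mul_assoc]
           abel
         exact (hr (g * h) f x).trans e1.symm }, fun g f x => hr g f x⟩
  have hit : ∀ (n : ℕ) (f : Xs A B) (x : P),
      (((⇑θ)^[n] f : Xs A B) : P → QZ) x = (f : P → QZ) ((⇑ψ)^[n] x) := by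
    intro n
    induction n with
    | zero => intro f x; rfl
    | succ n ih =>
      intro f x
      rw [Function.iterate_succ_apply, ih (θ f) x, hθ, Function.iterate_succ_apply']
  have hz : ∀ (f : Xs A B) (n : ℕ), (⇑θ)^[n] f = 0 ↔ ∀ x, (f : P → QZ) ((⇑ψ)^[n] x) = 0 := by
    intro f n
    constructor
    · intro h x
      rw [← hit n f x, h]
      rfl
    · intro h
      apply Subtype.ext
      funext x
      exact (hit n f x).trans (h x)
  refine ⟨θ, ρ, hθ, hρ, ?_⟩
  refine ⟨inf P d ψ N A B hL, ?_, ?_, ?_, ?_⟩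
  · intro f
    obtain ⟨M, hM⟩ := (c2 f).1 f.2
    obtain ⟨n, hn⟩ := c7 M f hM
    exact ⟨n, (hz f n).2 hn⟩
  · have hfin := (cnt P d ψ N A B hL ψ.range hL.rfi).2
    refine Set.Finite.of_finite_image (f := fun f : Xs A B => (f : P → QZ)) ?_
      (Set.injOn_of_injective Subtype.val_injective)
    refine hfin.subset ?_
    rintro _ ⟨f, hf, rfl⟩
    refine ⟨f.2, ?_⟩
    intro x h hh
    obtain ⟨y, rfl⟩ := hh
    obtain ⟨M, hM⟩ := (c2 f).1 f.2
    have h2 := c6 M f hM 1 ((hz f 1).1 hf) x⁻¹ y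
    rw [inv_inv] at h2
    exact sub_eq_zero.1 h2
  · intro g f
    apply Subtype.ext
    funext x
    have e1 : (θ (ρ (ψ g) f) : P → QZ) x = (ρ g (θ f) : P → QZ) x := by
      rw [hθ, hρ, hρ, hθ, hθ, map_mul, map_inv]
    exact e1
  · intro g n f hf
    rw [hz] at hf ⊢
    intro x
    obtain ⟨M, hM⟩ := (c2 f).1 f.2
    rw [hρ]
    exact c6 M f hM n hf g x

end Pool.Agent.ZGO.H64
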